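import Pool.Agent.N198.LI.Defs
import Pool.Agent.R920.PL.Law
import Pool.Agent.H914R2.KLef
import Pool.Agent.H914R2.HLam
import Pool.Agent.H447R3.NumB

/-!
# The index law for the Lefschetz standard conjecture
-/

open CategoryTheory AlgebraicGeometry

universe u v

namespace Pool.Agent.N198.LI

open Module
open Pool.Agent.H914 Pool.Agent.H447 Pool.Agent.W534 Pool.Agent.Y163 VarClass Obj WeilCohomology
  Pool.Agent.R940 Pool.Agent.R920.PL
open Pool.Agent.Y133.Half (ClassPred)

variable {k : Type u} [Field k] {𝒱 : VarClass k} {ops : CycleOps 𝒱}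
  {W : WeilCohomology.{u, v} ops} {X Y Z : 𝒱.Obj} {D : X.Cycles}

lemma LamClass.gr {j : ℕ} {c : W.H Y} (h : LamClass W X D Y j c) : c ∈ W.gr Y (2 * j) := by
  induction h with
  | cl hz => exact W.cl_mem hz
  | lam h => exact h.1
  | add _ _ ha hb => exact Submodule.add_mem _ ha hb
  | smul r _ ha => exact Submodule.smul_mem _ _ ha
  | @mul Y i j a b _ _ ha hb =>
    have := W.mul_mem ha hb
    rwa [show 2 * i + 2 * j = 2 * (i + j) by ring] at this
  | map f _ h => exact W.map_mem f h
  | @push Y Z f j l a hl _ h =>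
    have h2 := W.push_mem f h
    have e1 : ((2 * j : ℕ) : ℤ) + 2 * ((Z.dim : ℤ) - Y.dim) = ((2 * l : ℕ) : ℤ) := by
      push_cast; omega
    rw [e1, grZ_natCast] at h2
    exact h2

lemma LamClass.zero {j : ℕ} : LamClass W X D Y j 0 := by
  have h0 : Y.IsCyc j (0 : Y.Cycles) := SmVar.IsCyc.zero _ _
  have h := LamClass.cl (W := W) (X := X) (D := D) h0
  rwa [map_zero] at h

/-- The system of the classes. -/
def lamPred (W : WeilCohomology.{u, v} ops) (X : 𝒱.Obj) (D : X.Cycles) : ClassPred W where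
  P := LamClass W X D
  gr := LamClass.gr
  zero := LamClass.zero
  add := LamClass.add
  smul := LamClass.smul
  cl := LamClass.cl
  mul := LamClass.mul
  map := fun f _ _ h => LamClass.map f h
  push := fun f _ _ hl _ h => LamClass.push f hl h

lemma lamRank_eq (Y : 𝒱.Obj) (j : ℕ) :
    lamRank W X D Y j = finrank W.K (deg (lamPred W X D) Y j) := by
  have h : Submodule.span W.K {c : W.H Y | LamClass W X D Y j c} = deg (lamPred W X D) Y j := by
    apply le_antisymm
    · exact Submodule.span_le.2 fun c hc => hc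
    · exact fun c hc => Submodule.subset_span hc
  rw [lamRank, Set.finrank, h]

/-- The class of the operator `Λ` exists. -/
lemma exists_isLamClass (hD : X.IsCyc 1 D) (hHL : HardLefschetz W X D) :
    ∃ γ, IsLamClass W X D γ := by
  have hLh : IsHom (W.gr X) 2 (LinearMap.mulLeft W.K (W.cl X D)) := by
    simpa using rop_opAlg.hom (rop_mulLeft (W := W) hD)
  obtain ⟨Lam, h1, h2⟩ := exists_isLam (W.isInternal X) hLh (fun i hi => W.gr_eq_bot _ i hi) hHL
  obtain ⟨τ, rfl⟩ := exists_corr Lam
  rcases Nat.eq_zero_or_pos X.dim with h0 | h0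
  · refine ⟨0, Submodule.zero_mem _, ?_⟩
    rw [corr_zero]
    intro i hi a ha h
    refine ⟨rfl, fun j hj => ?_⟩
    omega
  · refine ⟨τ, mem_gr_of_isHom (p := X.dim - 1) ?_, h2⟩
    rwa [show 2 * (((X.dim - 1 : ℕ) : ℤ) - X.dim) = -2 by omega]

lemma isLam_unique {K : Type*} [Field K] {V : Type*} [AddCommGroup V] [Module K V]
    {gr : ℕ → Submodule K V} {n : ℕ} {L A B : Module.End K V} (h : DirectSum.IsInternal gr)
    (hL : IsHom gr 2 L) (hbd : ∀ i, 2 * n + 1 ≤ i → gr i = ⊥) (hHL : HardLef gr n L)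
    (hA : IsLam gr n L A) (hB : IsLam gr n L B) : A = B := by
  apply LinearMap.ext
  intro a
  refine lef_induction' h hL hbd hHL (p := fun a => A a = B a) ?_ ?_ a
  · intro a b ha hb; rw [map_add, map_add, ha, hb]
  · intro i hi a ha hp j
    rcases Nat.eq_zero_or_pos j with rfl | hj
    · rw [pow_zero, Module.End.one_apply, (hA i hi a ha hp).1, (hB i hi a ha hp).1]
    · obtain ⟨j, rfl⟩ := Nat.exists_eq_add_of_lt hj
      rw [zero_add]
      by_cases hj' : j < n - i
      · rw [(hA i hi a ha hp).2 j hj', (hB i hi a ha hp).2 j hj']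
      · rw [L_pow_gt hp (by omega), map_zero, map_zero]

/-- Hard Lefschetz implies that the self-intersection number is not zero. -/
lemma big_of_hardLefschetz [Nontrivial (W.H X)] (hD : X.IsCyc 1 D) (hHL : HardLefschetz W X D) :
    Big ops X D := by
  intro h0
  have h1 : W.tr X (W.cl X D ^ X.dim) = 0 := by
    rw [← cl_divPow_fund, W.tr_cl (divPow_fund_mem hD _), h0, Rat.cast_zero]
  have h2 : W.cl X D ^ X.dim = 0 := by
    apply W.nondeg
    intro b
    refine gr_induction (W.isInternal X) (p := fun b => W.tr X (W.cl X D ^ X.dim * b) = 0) ?_ ?_ b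
    · intro i b hb
      rcases Nat.eq_zero_or_pos i with rfl | hi
      · rw [W.gr_zero, Submodule.mem_span_singleton] at hb
        obtain ⟨r, rfl⟩ := hb
        rw [mul_smul_comm, mul_one, map_smul, h1, smul_zero]
      · exact W.tr_eq_zero (W.mul_mem (pow_mem_gr hD X.dim) hb) (by omega)
    · intro a b ha hb
      rw [mul_add, map_add, ha, hb, add_zero]
  have h3 := (hHL 0 (by omega)).1 1 (W.one_mem X)
  rw [Nat.sub_zero, mulLeft_pow_one] at h3
  exact one_ne_zero (h3 h2)

lemma lefschetzB_of_span (hD : X.IsCyc 1 D) (hHL : HardLefschetz W X D)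
    (h : ∀ j c, LamClass W X D (X.prod X) j c → c ∈ spanCycles W (X.prod X) j) :
    LefschetzB W X D := by
  refine ((lefschetzB_tfae hD hHL).out 0 1).2 ?_
  obtain ⟨γ, hγ⟩ := exists_isLamClass hD hHL
  rcases Nat.eq_zero_or_pos X.dim with h0 | h0
  · refine ⟨0, Submodule.zero_mem _, ?_⟩
    rw [corr_zero]
    intro i hi a ha h
    refine ⟨rfl, fun j hj => ?_⟩
    omega
  · refine ⟨γ, ?_, hγ.2⟩
    have := h _ _ (LamClass.lam hγ)
    rwa [show ((X.dim - 1 : ℕ) : ℤ) = (X.dim : ℤ) - 1 by omega] at this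

lemma mul_span {i j : ℕ} {a b : W.H Y} (ha : a ∈ spanCycles W Y i) (hb : b ∈ spanCycles W Y j) :
    a * b ∈ spanCycles W Y ((i + j : ℕ) : ℤ) := by
  induction ha using Submodule.span_induction with
  | mem x hx =>
    obtain ⟨r, hr, w, hw, rfl⟩ := hx
    obtain rfl : r = i := by exact_mod_cast hr
    exact (spanFam W).cl_mul hw hb
  | zero => rw [zero_mul]; exact Submodule.zero_mem _
  | add x y _ _ hx hy => rw [add_mul]; exact Submodule.add_mem _ hx hy
  | smul r x _ hx => rw [smul_mul_assoc]; exact Submodule.smul_mem _ _ hx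

lemma span_of_lefschetzB (hD : X.IsCyc 1 D) (hHL : HardLefschetz W X D)
    (hB : LefschetzB W X D) : AllAlgebraic W X D := by
  obtain ⟨z, hz, hzL⟩ := hB
  intro Y j c h
  have hLh : IsHom (W.gr X) 2 (LinearMap.mulLeft W.K (W.cl X D)) := by
    simpa using rop_opAlg.hom (rop_mulLeft (W := W) hD)
  induction h with
  | cl hz => exact Submodule.subset_span ⟨_, rfl, _, hz, rfl⟩
  | @lam γ h =>
    have h1 : W.corr γ = W.corr (W.cl (X.prod X) z) :=
      isLam_unique (W.isInternal X) hLh (fun i hi => W.gr_eq_bot _ i hi) hHL h.2 hzL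
    have h2 : corrLin W X X (γ - W.cl (X.prod X) z) = 0 := by
      rw [map_sub]
      exact sub_eq_zero.2 h1
    rw [sub_eq_zero.1 (corr_inj h2)]
    exact Submodule.subset_span ⟨_, rfl, _, hz, rfl⟩
  | add _ _ ha hb => exact Submodule.add_mem _ ha hb
  | smul r _ ha => exact Submodule.smul_mem _ _ ha
  | mul _ _ ha hb => exact mul_span ha hb
  | map f _ h => exact map_span f h
  | @push Y Z f j l a hl _ h =>
    exact (spanFam W).push f h (by omega)

lemma nearlyTwice_mono {C C' : ℕ} (hC : C ≤ C') {h r : ℕ → ℕ} (H : NearlyTwice C h r) :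
    NearlyTwice C' h r := by
  intro n hn
  refine le_trans ?_ (H n hn)
  apply mul_le_mul_of_nonneg_right _ (Nat.cast_nonneg _)
  have h1 : (0 : ℝ) ≤ Real.log (n + 2) / n := by
    apply div_nonneg (Real.log_nonneg _) (Nat.cast_nonneg _)
    have : (0 : ℝ) ≤ n := Nat.cast_nonneg _
    linarith
  have h2 : (C : ℝ) * (Real.log (n + 2) / n) ≤ C' * (Real.log (n + 2) / n) :=
    mul_le_mul_of_nonneg_right (by exact_mod_cast hC) h1
  rw [mul_div_assoc, mul_div_assoc]
  linarith

/-- If homological and numerical equivalence agree on `Z`, the rank modulo numerical equivalence is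
the dimension of the space of the algebraic classes. -/
lemma numRank_eq_finrank {j : ℕ} (hj : j ≤ Z.dim) (h : HomEqNum W Z) :
    numRank ops Z j = finrank W.K (spanCycles W Z j) := by
  rw [numRank_eq (W := W) hj, kRank]
  apply LinearMap.finrank_range_of_inj
  rw [← LinearMap.ker_eq_bot, LinearMap.ker_eq_bot']
  intro a ha
  have h1 : (a : W.H Z) ∈ Pool.Agent.H281R3.HT.algSpan W Z := Pool.Agent.Y129.span_le_algSpan j a.2
  have h2 : (a : W.H Z) ∈ transcendental W Z := by
    rw [Pool.Agent.Y129.mem_transcendental]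
    intro d hd
    refine Pool.Agent.W536.RR.algSpan_induction (p := fun d => W.tr Z (d * (a : W.H Z)) = 0)
      ?_ ?_ ?_ ?_ hd
    · rw [zero_mul, map_zero]
    · intro x y hx hy; rw [add_mul, map_add, hx, hy, add_zero]
    · intro t x hx; rw [smul_mul_assoc, map_smul, hx, smul_zero]
    · intro i z hz
      by_cases hi : i = Z.dim - j
      · subst hi
        have h3 : pair W Z j (Z.dim - j) a ⟨_, mem_span_cl hz⟩ = 0 := by
          rw [ha, LinearMap.zero_apply]
        rw [pair_apply] at h3
        rw [W.even_comm (W.cl_mem hz)]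
        exact h3
      · exact W.tr_eq_zero (W.mul_mem (W.cl_mem hz) (H914.span_gr a.2)) (by omega)
  exact Subtype.ext (Pool.Agent.Y129.homEqNum_algSpan h h1 h2)

/-- If `B` holds and homological and numerical equivalence agree the ranks are equal. -/
lemma lamRank_of_lefschetzB (hD : X.IsCyc 1 D) (hHL : HardLefschetz W X D)
    (hB : LefschetzB W X D) {j : ℕ} (hj : j ≤ Z.dim) (h : HomEqNum W Z) :
    lamRank W X D Z j = numRank ops Z j := by
  rw [numRank_eq_finrank hj h, lamRank_eq]
  have h1 : deg (lamPred W X D) Z j = spanCycles W Z j :=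
    le_antisymm (fun c hc => span_of_lefschetzB hD hHL hB Z j c hc) (span_le_deg _ _)
  rw [h1]

/-- **The index law for the Lefschetz standard conjecture.** -/
theorem lam_law [Nontrivial (W.H X)] (hX : SignStd W X) (hD : X.IsCyc 1 D)
    (hHL : HardLefschetz W X D) :
    (LefschetzB W X D ↔ AllAlgebraic W X D) ∧
    (∀ n, 0 < cycMid ops X n ∧ cycMid ops X n ≤ lamMid W X D n ∧
      lamMid W X D n ≤ (n + 2) ^ (totalBetti W X ^ 2) * cycMid ops X n) ∧
    (LefschetzB W X D → ∀ n, HomEqNum W (sq X n) → lamMid W X D n = cycMid ops X n) ∧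
    ∀ κ, 0 < κ → ((LefschetzB W X D ∧ HomEqNum W (pw X κ)) ∨
      NearlyTwice (indexConst (totalBetti W X) κ) (lamMid W X D) (cycMid ops X)) := by
  obtain ⟨hA, hB⟩ := pred_law (lamPred W X D) hX hD (big_of_hardLefschetz hD hHL)
  have e1 : ∀ n, lamMid W X D n = finrank W.K (deg (lamPred W X D) (sq X n) ((n + 1) * X.dim)) :=
    fun n => lamRank_eq _ _
  refine ⟨⟨span_of_lefschetzB hD hHL, fun h => lefschetzB_of_span hD hHL (fun j c hc => h _ _ _ hc)⟩,
    fun n => ?_, fun hL n hn => lamRank_of_lefschetzB hD hHL hL (by rw [dim_sq]; omega) hn,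
    fun κ hκ => ?_⟩
  · rw [e1]
    exact hA n
  · have e2 : lamMid W X D =
        fun n => finrank W.K (deg (lamPred W X D) (sq X n) ((n + 1) * X.dim)) := funext e1
    rw [e2]
    rcases hB κ with ⟨h1, h2⟩ | h
    · rcases hB 1 with ⟨h3, h4⟩ | h
      · left
        exact ⟨lefschetzB_of_span hD hHL (fun j c hc => h3 j c hc), h2⟩
      · right
        refine nearlyTwice_mono ?_ h
        have hb : 1 ≤ R940.betti W X := Nat.one_le_iff_ne_zero.2 (by
          rw [R940.betti]; exact Module.finrank_pos.ne')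
        change indexConst (R940.betti W X) 1 ≤ indexConst (R940.betti W X) κ
        rw [indexConst, indexConst]
        apply Nat.mul_le_mul
        · omega
        · exact Nat.pow_le_pow_right hb (by omega)
    · exact Or.inr h

end Pool.Agent.N198.LI
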