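import Pool.Agent.H914R2.KDefs2
import Pool.Agent.H914R2.DDefs
import Pool.Agent.W534.PoleDefs
import Pool.Agent.Y163.Defs

/-!
# The classes generated by cycles and the inverse of the Lefschetz operator
-/

open CategoryTheory AlgebraicGeometry

universe u v

namespace Pool.Agent.N198.LI

open Pool.Agent.H914 VarClass Obj WeilCohomology

variable {k : Type u} [Field k] {𝒱 : VarClass k} {ops : CycleOps 𝒱}

/-- The class `γ` on `X × X` induces the operator `Λ` attached to the divisor `D`. -/
def IsLamClass (W : WeilCohomology.{u, v} ops) (X : 𝒱.Obj) (D : X.Cycles)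
    (γ : W.H (X.prod X)) : Prop :=
  γ ∈ W.gr (X.prod X) (2 * (X.dim - 1)) ∧
    IsLam (W.gr X) X.dim (LinearMap.mulLeft W.K (W.cl X D)) (W.corr γ)

/-- `LamClass W X D Y j c`: the class `c` of degree `2 j` on the variety `Y` is obtained from
classes of algebraic cycles and from the class on `X × X` which induces the operator `Λ`, by linear
combinations, products, pull-backs and push-forwards (between arbitrary varieties). -/
inductive LamClass (W : WeilCohomology.{u, v} ops) (X : 𝒱.Obj) (D : X.Cycles) :
    ∀ Y : 𝒱.Obj, ℕ → W.H Y → Prop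
  /-- the class of an algebraic cycle -/
  | cl {Y : 𝒱.Obj} {j : ℕ} {z : Y.Cycles} : Y.IsCyc j z → LamClass W X D Y j (W.cl Y z)
  /-- the class of the operator `Λ` -/
  | lam {γ : W.H (X.prod X)} : IsLamClass W X D γ →
      LamClass W X D (X.prod X) (X.dim - 1) γ
  /-- sums -/
  | add {Y : 𝒱.Obj} {j : ℕ} {a b : W.H Y} : LamClass W X D Y j a → LamClass W X D Y j b →
      LamClass W X D Y j (a + b)
  /-- multiples -/
  | smul {Y : 𝒱.Obj} {j : ℕ} (r : W.K) {a : W.H Y} : LamClass W X D Y j a →
      LamClass W X D Y j (r • a)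
  /-- cup products -/
  | mul {Y : 𝒱.Obj} {i j : ℕ} {a b : W.H Y} : LamClass W X D Y i a → LamClass W X D Y j b →
      LamClass W X D Y (i + j) (a * b)
  /-- pull-backs -/
  | map {Y Z : 𝒱.Obj} (f : Y ⟶ Z) {j : ℕ} {a : W.H Z} : LamClass W X D Z j a →
      LamClass W X D Y j (W.map f a)
  /-- push-forwards -/
  | push {Y Z : 𝒱.Obj} (f : Y ⟶ Z) {j l : ℕ} {a : W.H Y} : l + Y.dim = j + Z.dim →
      LamClass W X D Y j a → LamClass W X D Z l (W.push f a)

/-- The dimension of the space spanned by the classes of degree `2 j` on `Y` which are generated by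
algebraic cycles and the operator `Λ`. -/
noncomputable def lamRank (W : WeilCohomology.{u, v} ops) (X : 𝒱.Obj) (D : X.Cycles) (Y : 𝒱.Obj)
    (j : ℕ) : ℕ :=
  Set.finrank W.K {c : W.H Y | LamClass W X D Y j c}

/-- All classes generated by cycles and `Λ`, on all varieties, are linear combinations of classes of
cycles. -/
def AllAlgebraic (W : WeilCohomology.{u, v} ops) (X : 𝒱.Obj) (D : X.Cycles) : Prop :=
  ∀ (Y : 𝒱.Obj) (j : ℕ) (c : W.H Y), LamClass W X D Y j c → c ∈ spanCycles W Y j

/-- The number `m n`: the dimension of the space of the classes generated by cycles and `Λ` in the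
middle degree of `X ^ (2 n + 2)`. -/
noncomputable def lamMid (W : WeilCohomology.{u, v} ops) (X : 𝒱.Obj) (D : X.Cycles) (n : ℕ) : ℕ :=
  lamRank W X D (Pool.Agent.Y163.sq X n) ((n + 1) * X.dim)

/-- The number `r n`: the rank of the group of the cycles in the middle degree of `X ^ (2 n + 2)`
modulo numerical equivalence. -/
noncomputable def cycMid (ops : CycleOps 𝒱) (X : 𝒱.Obj) (n : ℕ) : ℕ :=
  Pool.Agent.W534.numRank ops (Pool.Agent.Y163.sq X n) ((n + 1) * X.dim)

/-- The sum of the Betti numbers. -/
noncomputable def totalBetti (W : WeilCohomology.{u, v} ops) (X : 𝒱.Obj) : ℕ :=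
  Module.finrank W.K (W.H X)

end Pool.Agent.N198.LI
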